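import Pool.Agent.T6.H51.SV.Core
import Pool.Agent.T6.H51.SV.Joint

/-!
# Spectral variation of commuting tuples of Hermitian matrices

For all `K`-tuples `A`, `B` of pairwise commuting Hermitian `n × n` matrices the joint eigenvalues
can be matched so that the Euclidean distances are at most `π K ‖A - B‖`. Hence `C_K ≤ π K < ∞` for
every `K`.

Idea of the proof. If there is no such matching then, by Hall's theorem, there are `δ > π K ‖A - B‖`
and a unit vector `x` which is a combination of joint eigenvectors of `A` as well as of `B` such that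
all the joint eigenvalues of `A` occurring are at distance at least `δ` from those of `B` occurring.
The function `φ(t) = ⟨exp(i t·A) x, exp(i t·B) x⟩` on `ℝ^K` has `φ(0) = 1`, is Lipschitz with
constant `‖A - B‖` and has all its frequencies outside the ball of radius `δ`; so its average for a
product probability measure whose characteristic function vanishes outside this ball is `0`.
-/

set_option autoImplicit false

open scoped ENNReal

namespace Pool.Agent.Results.MP_434093_an.LinearBound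

variable {K n : ℕ}

/-- A `K`-tuple: pairwise commuting Hermitian complex `n × n` matrices `A 1, …, A K`. -/
structure IsTuple (A : Fin K → Matrix (Fin n) (Fin n) ℂ) : Prop where
  hermitian : ∀ J, (A J).IsHermitian
  commute : ∀ I J, A I * A J = A J * A I

/-- `α j ∈ ℝ^K` (`j = 1, …, n`) are the joint eigenvalues of `A`, listed with multiplicity: there is
an orthonormal basis `u` of `ℂ^n` with `A J (u j) = α j J • u j` for all `J` and `j`. -/
def IsJointSpectrum (A : Fin K → Matrix (Fin n) (Fin n) ℂ)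
    (α : Fin n → EuclideanSpace ℝ (Fin K)) : Prop :=
  ∃ u : OrthonormalBasis (Fin n) ℂ (EuclideanSpace ℂ (Fin n)),
    ∀ J j, Matrix.toEuclideanLin (A J) (u j) = (α j J : ℂ) • u j

/-- The optimal matching distance `min_σ max_j |α j - β (σ j)|`, `σ` a permutation. -/
noncomputable def matchingDistance (α β : Fin n → EuclideanSpace ℝ (Fin K)) : ℝ :=
  ⨅ σ : Equiv.Perm (Fin n), ⨆ j, ‖α j - β (σ j)‖

/-- `‖D‖`: the operator norm of the map `x ↦ (D 1 x, …, D K x)` from `ℂ^n` to `(ℂ^n)^K`, that is, the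
least `c ≥ 0` with `(∑ J, ‖D J x‖²)^(1/2) ≤ c ‖x‖` for all `x ∈ ℂ^n`. -/
noncomputable def tupleNorm (D : Fin K → Matrix (Fin n) (Fin n) ℂ) : ℝ :=
  sInf {c : ℝ | 0 ≤ c ∧ ∀ x : EuclideanSpace ℂ (Fin n),
    Real.sqrt (∑ J, ‖Matrix.toEuclideanLin (D J) x‖ ^ 2) ≤ c * ‖x‖}

/-- `C` is a constant as in the problem: `δ(A, B) ≤ C ‖A - B‖` for all `n ≥ 1` and all `K`-tuples
`A`, `B` of `n × n` matrices. -/
def IsBound (K : ℕ) (C : ℝ≥0∞) : Prop :=
  ∀ (n : ℕ) (A B : Fin K → Matrix (Fin n) (Fin n) ℂ) (α β : Fin n → EuclideanSpace ℝ (Fin K)),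
    1 ≤ n → IsTuple A → IsTuple B → IsJointSpectrum A α → IsJointSpectrum B β →
    ENNReal.ofReal (matchingDistance α β) ≤ C * ENNReal.ofReal (tupleNorm (fun J => A J - B J))

/-- The constant `C_K`: the smallest `C` (possibly infinite) with `δ(A, B) ≤ C ‖A - B‖`. -/
noncomputable def spectralConstant (K : ℕ) : ℝ≥0∞ := sInf {C | IsBound K C}

lemma tupleNorm_nonneg (D : Fin K → Matrix (Fin n) (Fin n) ℂ) : 0 ≤ tupleNorm D :=
  Real.sInf_nonneg fun _ hc => hc.1

lemma le_tupleNorm (D : Fin K → Matrix (Fin n) (Fin n) ℂ) (x : EuclideanSpace ℂ (Fin n)) :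
    Real.sqrt (∑ J, ‖Matrix.toEuclideanLin (D J) x‖ ^ 2) ≤ tupleNorm D * ‖x‖ := by
  have hne : {c : ℝ | 0 ≤ c ∧ ∀ x : EuclideanSpace ℂ (Fin n),
      Real.sqrt (∑ J, ‖Matrix.toEuclideanLin (D J) x‖ ^ 2) ≤ c * ‖x‖}.Nonempty := by
    refine ⟨Real.sqrt (∑ J, ‖LinearMap.toContinuousLinearMap (Matrix.toEuclideanLin (D J))‖ ^ 2),
      Real.sqrt_nonneg _, fun x => ?_⟩
    rw [← Real.sqrt_sq (norm_nonneg x), ← Real.sqrt_mul (Finset.sum_nonneg fun _ _ => sq_nonneg _)]
    apply Real.sqrt_le_sqrt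
    rw [Finset.sum_mul]
    refine Finset.sum_le_sum fun J _ => ?_
    rw [← mul_pow]
    exact pow_le_pow_left₀ (norm_nonneg _)
      ((LinearMap.toContinuousLinearMap (Matrix.toEuclideanLin (D J))).le_opNorm x) 2
  rcases eq_or_ne x 0 with rfl | hx
  · simp
  · have hx0 : 0 < ‖x‖ := norm_pos_iff.2 hx
    rw [← div_le_iff₀ hx0]
    apply le_csInf hne
    rintro c ⟨_, hc⟩
    rw [div_le_iff₀ hx0]
    exact hc x

lemma exists_jointSpectrum {A : Fin K → Matrix (Fin n) (Fin n) ℂ} (hA : IsTuple A) :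
    ∃ α, IsJointSpectrum A α := by
  have hsym : ∀ J, (Matrix.toEuclideanLin (A J)).IsSymmetric := fun J =>
    Matrix.isSymmetric_toEuclideanLin_iff.2 (hA.hermitian J)
  have hcomm : Pairwise (Function.onFun Commute fun J => Matrix.toEuclideanLin (A J)) := by
    intro I J _
    show Matrix.toEuclideanLin (A I) * Matrix.toEuclideanLin (A J) =
      Matrix.toEuclideanLin (A J) * Matrix.toEuclideanLin (A I)
    have h0 : ∀ (M N : Matrix (Fin n) (Fin n) ℂ) (x : EuclideanSpace ℂ (Fin n)),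
        Matrix.toEuclideanLin M (Matrix.toEuclideanLin N x) =
        Matrix.toEuclideanLin (M * N) x := by
      intro M N x
      show WithLp.toLp 2 (M.mulVec (N.mulVec x.ofLp)) = WithLp.toLp 2 ((M * N).mulVec x.ofLp)
      rw [Matrix.mulVec_mulVec]
    refine LinearMap.ext fun x => ?_
    rw [Module.End.mul_apply, Module.End.mul_apply, h0, h0, hA.commute]
  obtain ⟨u, χ, heig⟩ := Pool.Agent.T6.H51.SV.joint_basis (finrank_euclideanSpace_fin)
    (fun J => Matrix.toEuclideanLin (A J)) hsym hcomm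
  have hreal : ∀ j J, ((χ j J).re : ℂ) = χ j J := by
    intro j J
    have hne : u j ≠ 0 := by
      intro h0
      have := u.orthonormal.1 j
      rw [h0, norm_zero] at this
      exact zero_ne_one this
    have h1 := (hsym J).conj_eigenvalue_eq_self
      (Module.End.hasEigenvalue_of_hasEigenvector ⟨Module.End.mem_eigenspace_iff.2 (heig j J), hne⟩)
    exact Complex.conj_eq_iff_re.1 h1
  refine ⟨fun j => WithLp.toLp 2 (fun J => (χ j J).re), u, fun J j => ?_⟩
  have h2 : (((WithLp.toLp 2 (fun J => (χ j J).re) : EuclideanSpace ℝ (Fin K)) J : ℝ) : ℂ) = χ j J :=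
    hreal j J
  rw [h2]
  exact heig j J

lemma bound (A B : Fin K → Matrix (Fin n) (Fin n) ℂ) (α β : Fin n → EuclideanSpace ℝ (Fin K))
    (hA : IsTuple A) (hB : IsTuple B) (hα : IsJointSpectrum A α) (hβ : IsJointSpectrum B β) :
    ∃ σ : Equiv.Perm (Fin n), ∀ j,
      ‖α j - β (σ j)‖ ≤ Real.pi * K * tupleNorm (fun J => A J - B J) := by
  obtain ⟨u, hu⟩ := hα
  obtain ⟨v, hv⟩ := hβ
  have hsA : ∀ J, (Matrix.toEuclideanLin (A J)).IsSymmetric := fun J =>
    Matrix.isSymmetric_toEuclideanLin_iff.2 (hA.hermitian J)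
  have hsB : ∀ J, (Matrix.toEuclideanLin (B J)).IsSymmetric := fun J =>
    Matrix.isSymmetric_toEuclideanLin_iff.2 (hB.hermitian J)
  obtain ⟨σ, hσ⟩ := Pool.Agent.T6.H51.SV.matching
    (A := fun J => Matrix.toEuclideanLin (A J)) (B := fun J => Matrix.toEuclideanLin (B J))
    (u := u) (v := v) (α := fun j J => α j J) (β := fun j J => β j J)
    ⟨hsA, hu⟩ ⟨hsB, hv⟩ (η := tupleNorm (fun J => A J - B J)) (tupleNorm_nonneg _) (by
      intro y
      have h1 := le_tupleNorm (fun J => A J - B J) y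
      have h2 : ∑ J, ‖Matrix.toEuclideanLin (A J - B J) y‖ ^ 2 =
          ∑ J, ‖Matrix.toEuclideanLin (B J) y - Matrix.toEuclideanLin (A J) y‖ ^ 2 := by
        refine Finset.sum_congr rfl fun J _ => ?_
        rw [norm_sub_rev, map_sub, LinearMap.sub_apply]
      rw [← h2, ← mul_pow, ← Real.sq_sqrt (Finset.sum_nonneg fun J _ => sq_nonneg _)]
      exact pow_le_pow_left₀ (Real.sqrt_nonneg _) h1 2)
  refine ⟨σ, fun j => ?_⟩
  have h3 := hσ j
  rw [EuclideanSpace.norm_eq]
  simpa [Real.norm_eq_abs, sq_abs] using h3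

/-- **Q1 holds, with an explicit bound.** Every tuple has a list of joint eigenvalues; for all
`K`-tuples `A`, `B` of `n × n` matrices with joint eigenvalues `α`, `β` there is a permutation `σ`
with `|α j - β (σ j)| ≤ π K ‖A - B‖` for all `j`; and `C_K ≤ π K`, in particular `C_K < ∞`, for
every `K`. -/
theorem result :
    (∀ (K n : ℕ) (A : Fin K → Matrix (Fin n) (Fin n) ℂ), IsTuple A → ∃ α, IsJointSpectrum A α) ∧
    (∀ (K n : ℕ) (A B : Fin K → Matrix (Fin n) (Fin n) ℂ) (α β : Fin n → EuclideanSpace ℝ (Fin K)),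
      IsTuple A → IsTuple B → IsJointSpectrum A α → IsJointSpectrum B β →
      ∃ σ : Equiv.Perm (Fin n), ∀ j,
        ‖α j - β (σ j)‖ ≤ Real.pi * K * tupleNorm (fun J => A J - B J)) ∧
    (∀ K : ℕ, spectralConstant K ≤ ENNReal.ofReal (Real.pi * K) ∧ spectralConstant K < ∞) := by
  refine ⟨fun K n A hA => exists_jointSpectrum hA, fun K n A B α β hA hB hα hβ =>
    bound A B α β hA hB hα hβ, fun K => ?_⟩
  have h1 : spectralConstant K ≤ ENNReal.ofReal (Real.pi * K) := by
    apply sInf_le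
    intro n A B α β hn hA hB hα hβ
    obtain ⟨σ, hσ⟩ := bound A B α β hA hB hα hβ
    rw [← ENNReal.ofReal_mul (by positivity)]
    apply ENNReal.ofReal_le_ofReal
    unfold matchingDistance
    have hne : Nonempty (Fin n) := ⟨⟨0, hn⟩⟩
    refine (ciInf_le ⟨0, ?_⟩ σ).trans (ciSup_le hσ)
    rintro _ ⟨τ, rfl⟩
    exact Real.iSup_nonneg fun j => norm_nonneg _
  exact ⟨h1, h1.trans_lt ENNReal.ofReal_lt_top⟩

end Pool.Agent.Results.MP_434093_an.LinearBound
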